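import Mathlib
import Pool.Agent.V11117.MExp

namespace Pool.Agent.Results.MP_513688_co.NilpotentCounterexample

open Finset Matrix Pool.Agent.V11117.MExp
open scoped Nat

/-- the integer witness -/
def AZ : Matrix (Fin 4) (Fin 4) ℤ := !![0,2,1,1; 1,1,0,2; 1,1,2,0; 2,0,1,1]

lemma pow_map {R : Type*} [CommRing R] (k : ℕ) :
    (AZ.map (Int.castRingHom R)) ^ k = (AZ ^ k).map (Int.castRingHom R) :=
  ((Int.castRingHom R).mapMatrix.map_pow AZ k).symm

lemma pow_large (k : ℕ) : AZ ^ (k + 3) = (4 : ℤ) ^ k • (16 • (Matrix.of fun _ _ => (1 : ℤ))) := by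
  induction k with
  | zero => decide +kernel
  | succ k ih =>
    have h1 : (Matrix.of fun _ _ => (1 : ℤ)) * AZ = 4 • (Matrix.of fun _ _ => (1 : ℤ)) := by
      decide +kernel
    rw [show k + 1 + 3 = (k + 3) + 1 by ring, pow_succ, ih, Matrix.smul_mul, Matrix.smul_mul, h1,
      pow_succ, mul_smul]
    ext i j
    simp

/-- **Disproof**: for a non-diagonalizable nonnegative matrix, equal diagonal entries of the
exponential need not force cospectrality. -/
theorem result : ∃ (n : ℕ) (A : Matrix (Fin n) (Fin n) ℝ) (β : ℂ) (i j : Fin n),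
    (∀ u v, 0 ≤ A u v ∧ IsAlgebraic ℚ (A u v)) ∧
    (¬ ∃ (P : (Matrix (Fin n) (Fin n) ℂ)ˣ) (D : Fin n → ℂ),
      A.map Complex.ofReal = (P : Matrix (Fin n) (Fin n) ℂ) * diagonal D *
        ((P⁻¹ : (Matrix (Fin n) (Fin n) ℂ)ˣ) : Matrix (Fin n) (Fin n) ℂ)) ∧
    β ≠ 0 ∧ IsAlgebraic ℚ β ∧
    (NormedSpace.exp (β • A.map Complex.ofReal)) i i
      = (NormedSpace.exp (β • A.map Complex.ofReal)) j j ∧
    ∃ r : ℕ, (A ^ r) i i ≠ (A ^ r) j j := by
  have hmap : (AZ.map (Int.castRingHom ℝ)).map Complex.ofReal = AZ.map (Int.castRingHom ℂ) := by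
    ext i j
    simp
  refine ⟨4, AZ.map (Int.castRingHom ℝ), 1, 0, 1, ?_, ?_, one_ne_zero, isAlgebraic_one, ?_, ?_⟩
  · intro u v
    refine ⟨?_, ?_⟩
    · have h : ∀ u v, 0 ≤ AZ u v := by decide
      have := h u v
      simp only [Matrix.map_apply, Int.coe_castRingHom]
      exact_mod_cast this
    · simp only [Matrix.map_apply, Int.coe_castRingHom]
      exact isAlgebraic_int _
  · rw [hmap]
    rintro ⟨P, D, h⟩
    have hpow : ∀ k, (AZ.map (Int.castRingHom ℂ)) ^ k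
        = (P : Matrix (Fin 4) (Fin 4) ℂ) * diagonal (fun i => D i ^ k) *
          ((P⁻¹ : (Matrix (Fin 4) (Fin 4) ℂ)ˣ) : Matrix (Fin 4) (Fin 4) ℂ) := by
      intro k
      induction k with
      | zero => simp
      | succ k ih =>
        rw [pow_succ, ih, h]
        calc (P : Matrix (Fin 4) (Fin 4) ℂ) * diagonal (fun i => D i ^ k) *
              ((P⁻¹ : (Matrix (Fin 4) (Fin 4) ℂ)ˣ) : Matrix (Fin 4) (Fin 4) ℂ) *
              ((P : Matrix (Fin 4) (Fin 4) ℂ) * diagonal D *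
              ((P⁻¹ : (Matrix (Fin 4) (Fin 4) ℂ)ˣ) : Matrix (Fin 4) (Fin 4) ℂ))
            = (P : Matrix (Fin 4) (Fin 4) ℂ) * (diagonal (fun i => D i ^ k) *
              (((P⁻¹ : (Matrix (Fin 4) (Fin 4) ℂ)ˣ) : Matrix (Fin 4) (Fin 4) ℂ) *
              (P : Matrix (Fin 4) (Fin 4) ℂ)) * diagonal D) *
              ((P⁻¹ : (Matrix (Fin 4) (Fin 4) ℂ)ˣ) : Matrix (Fin 4) (Fin 4) ℂ) := by
              simp only [Matrix.mul_assoc]
          _ = _ := by
              rw [Units.inv_mul, Matrix.mul_one, Matrix.diagonal_mul_diagonal]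
              simp only [pow_succ]
    have hlin : ∀ f : Fin 4 → ℂ, ((P⁻¹ : (Matrix (Fin 4) (Fin 4) ℂ)ˣ) : Matrix (Fin 4) (Fin 4) ℂ) *
        ((P : Matrix (Fin 4) (Fin 4) ℂ) * diagonal f *
          ((P⁻¹ : (Matrix (Fin 4) (Fin 4) ℂ)ˣ) : Matrix (Fin 4) (Fin 4) ℂ)) *
        (P : Matrix (Fin 4) (Fin 4) ℂ) = diagonal f := by
      intro f
      calc _ = (((P⁻¹ : (Matrix (Fin 4) (Fin 4) ℂ)ˣ) : Matrix (Fin 4) (Fin 4) ℂ) *
              (P : Matrix (Fin 4) (Fin 4) ℂ)) * diagonal f *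
              (((P⁻¹ : (Matrix (Fin 4) (Fin 4) ℂ)ˣ) : Matrix (Fin 4) (Fin 4) ℂ) *
              (P : Matrix (Fin 4) (Fin 4) ℂ)) := by simp only [Matrix.mul_assoc]
        _ = _ := by rw [Units.inv_mul, Matrix.one_mul, Matrix.mul_one]
    -- `A ^ 4 = 4 A ^ 3`
    have h43 : (AZ.map (Int.castRingHom ℂ)) ^ 4 = (4 : ℂ) • (AZ.map (Int.castRingHom ℂ)) ^ 3 := by
      have h0 : ∀ i j, (AZ ^ 4) i j = 4 * (AZ ^ 3) i j := by decide +kernel
      rw [pow_map, pow_map]
      ext i j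
      simp only [Matrix.map_apply, Matrix.smul_apply, h0, smul_eq_mul, Int.coe_castRingHom]
      push_cast
      ring
    have hD : ∀ i, D i ^ 4 = 4 * D i ^ 3 := by
      intro i
      rw [hpow, hpow] at h43
      have h5 := congrArg (fun M => ((P⁻¹ : (Matrix (Fin 4) (Fin 4) ℂ)ˣ) :
        Matrix (Fin 4) (Fin 4) ℂ) * M * (P : Matrix (Fin 4) (Fin 4) ℂ)) h43
      simp only [Matrix.mul_smul, Matrix.smul_mul] at h5
      rw [hlin, hlin] at h5
      have := congrFun (congrFun h5 i) i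
      simpa using this
    have hD2 : ∀ i, D i ^ 3 = 4 * D i ^ 2 := by
      intro i
      by_cases h0 : D i = 0
      · simp [h0]
      · have h4 := hD i
        have : D i * (D i ^ 3) = D i * (4 * D i ^ 2) := by
          rw [show D i * D i ^ 3 = D i ^ 4 by ring, h4]
          ring
        exact mul_left_cancel₀ h0 this
    have h32 : (AZ.map (Int.castRingHom ℂ)) ^ 3 = (4 : ℂ) • (AZ.map (Int.castRingHom ℂ)) ^ 2 := by
      rw [hpow, hpow]
      have : (fun i => D i ^ 3) = (4 : ℂ) • (fun i => D i ^ 2) := by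
        funext i
        simp [hD2]
      rw [this, ← Matrix.smul_mul, ← Matrix.mul_smul, Matrix.diagonal_smul]
    have h6 := congrFun (congrFun h32 0) 0
    rw [pow_map, pow_map] at h6
    have h7 : (AZ ^ 3) 0 0 = 16 := by decide +kernel
    have h8 : (AZ ^ 2) 0 0 = 5 := by decide +kernel
    simp only [Matrix.map_apply, Matrix.smul_apply, h7, h8, smul_eq_mul, Int.coe_castRingHom] at h6
    norm_num at h6
  · rw [hmap, one_smul]
    have h0 := hasSum_exp_apply (AZ.map (Int.castRingHom ℂ)) 0 0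
    have h1 := hasSum_exp_apply (AZ.map (Int.castRingHom ℂ)) 1 1
    have h2 := h0.sub h1
    have h3 : HasSum (fun n : ℕ => ((n ! : ℂ)⁻¹) * ((AZ.map (Int.castRingHom ℂ)) ^ n) 0 0
        - ((n ! : ℂ)⁻¹) * ((AZ.map (Int.castRingHom ℂ)) ^ n) 1 1)
        (∑ n ∈ Finset.range 3, (((n ! : ℂ)⁻¹) * ((AZ.map (Int.castRingHom ℂ)) ^ n) 0 0
        - ((n ! : ℂ)⁻¹) * ((AZ.map (Int.castRingHom ℂ)) ^ n) 1 1)) := by
      apply hasSum_sum_of_ne_finset_zero
      intro n hn
      rw [Finset.mem_range, not_lt] at hn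
      obtain ⟨k, rfl⟩ := Nat.exists_eq_add_of_le hn
      rw [add_comm 3 k, pow_map, pow_large]
      simp
    have h4 := h2.unique h3
    have h5 : ∑ n ∈ Finset.range 3, (((n ! : ℂ)⁻¹) * ((AZ.map (Int.castRingHom ℂ)) ^ n) 0 0
        - ((n ! : ℂ)⁻¹) * ((AZ.map (Int.castRingHom ℂ)) ^ n) 1 1) = 0 := by
      have a1 : (AZ ^ 1) 0 0 = 0 := by decide +kernel
      have a2 : (AZ ^ 2) 0 0 = 5 := by decide +kernel
      have b1 : (AZ ^ 1) 1 1 = 1 := by decide +kernel
      have b2 : (AZ ^ 2) 1 1 = 3 := by decide +kernel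
      have a0 : (AZ ^ 0) 0 0 = 1 := by decide +kernel
      have b0 : (AZ ^ 0) 1 1 = 1 := by decide +kernel
      have e : ∀ (k : ℕ) (i : Fin 4), ((AZ.map (Int.castRingHom ℂ)) ^ k) i i
          = (((AZ ^ k) i i : ℤ) : ℂ) := by
        intro k i
        rw [pow_map, Matrix.map_apply, Int.coe_castRingHom]
      simp only [Finset.sum_range_succ, Finset.sum_range_zero, e,
        a0, a1, a2, b0, b1, b2, Nat.factorial]
      norm_num
    rw [h5] at h4
    exact sub_eq_zero.mp h4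
  · refine ⟨1, ?_⟩
    have a1 : AZ 0 0 = 0 := by decide +kernel
    have b1 : AZ 1 1 = 1 := by decide +kernel
    simp only [pow_one, Matrix.map_apply, a1, b1, Int.coe_castRingHom]
    norm_num

end Pool.Agent.Results.MP_513688_co.NilpotentCounterexample
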